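import Pool.Agent.Helper21.W4.St2

/-!
# W4, module Fb: area of a face of type 3
-/

set_option autoImplicit false

namespace Pool.Agent.Helper92.W4

open Pool.Agent.Helper21.W4 Finset

/-- number of corners below `m` -/
def cc (s : ℕ → ℕ) (m : ℕ) : ℕ :=
  ((range m).filter (fun p => 1 ≤ p ∧ 2 ≤ s p ∧ s (p + 1) < s p)).card

theorem cc_succ (s : ℕ → ℕ) (m : ℕ) :
    cc s (m + 1) = cc s m + if 1 ≤ m ∧ 2 ≤ s m ∧ s (m + 1) < s m then 1 else 0 := by
  unfold cc
  rw [range_add_one, filter_insert]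
  split_ifs with h
  · rw [card_insert_of_notMem]
    simp
  · simp

theorem cc_le (s : ℕ → ℕ) (m : ℕ) : cc s (m + 1) ≤ m := by
  induction m with
  | zero => rw [cc_succ]; simp [cc]
  | succ m ih =>
    rw [cc_succ]
    split_ifs <;> omega

theorem low (s : ℕ → ℕ) (hs : ∀ p, s (p + 1) ≤ s p) (k : ℕ) :
    2 * (s 1 - 1) + 2 * k * (s (k + 2) - 1) + cc s (k + 2) * cc s (k + 2) ≤
      2 * ∑ p ∈ range (k + 1), (s (p + 1) - 1) + cc s (k + 2) := by
  induction k with
  | zero =>
    have h1 : cc s 2 ≤ 1 := cc_le s 1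
    have h2 : cc s 2 * cc s 2 ≤ cc s 2 := by
      have : cc s 2 = 0 ∨ cc s 2 = 1 := by omega
      rcases this with h | h <;> simp [h]
    simp only [Nat.zero_add, range_one, sum_singleton]
    simp only [mul_zero, zero_mul, add_zero]
    omega
  | succ k ih =>
    rw [sum_range_succ]
    have hc := cc_succ s (k + 2)
    have hl := cc_le s (k + 1)
    have h1 := hs (k + 2)
    have e1 : k + 1 + 2 = k + 2 + 1 := by ring
    have e2 : k + 1 + 1 = k + 2 := by ring
    rw [e1, e2]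
    rw [e2] at hl
    by_cases hcor : 1 ≤ k + 2 ∧ 2 ≤ s (k + 2) ∧ s (k + 2 + 1) < s (k + 2)
    · rw [if_pos hcor] at hc
      obtain ⟨_, h3, h4⟩ := hcor
      have h5 : s (k + 2 + 1) - 1 + 1 ≤ s (k + 2) - 1 := by omega
      generalize s (k + 2 + 1) - 1 = x at h5
      generalize s (k + 2) - 1 = y at h5 ih
      generalize cc s (k + 2) = t at hc hl ih
      rw [hc]
      have h6 : (k + 1) * (x + 1) ≤ (k + 1) * y := Nat.mul_le_mul_left _ h5
      nlinarith
    · rw [if_neg hcor] at hc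
      have h5 : s (k + 2 + 1) - 1 = s (k + 2) - 1 := by
        by_contra hne
        apply hcor
        omega
      rw [hc, h5]
      generalize s (k + 2) - 1 = y at ih
      generalize cc s (k + 2) = t at ih
      nlinarith

theorem high (s : ℕ → ℕ) (h j : ℕ) :
    ∑ p ∈ range h, (s (p + 1) - 1) + cc s (h + j + 1) ≤
      ∑ p ∈ range (h + j), (s (p + 1) - 1) + cc s (h + 1) := by
  induction j with
  | zero => simp
  | succ j ih =>
    have e1 : h + (j + 1) = h + j + 1 := by ring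
    rw [e1, sum_range_succ, cc_succ s (h + j + 1)]
    split_ifs with hc
    · obtain ⟨_, h3, _⟩ := hc
      omega
    · omega

theorem card_low (B : ℕ) (s : ℕ → ℕ) (h : ℕ) (hB : h ≤ B) :
    ((cor B s).filter (fun l => l < h)).card = cc s h := by
  unfold cor cc
  congr 1
  ext l
  simp only [mem_filter, mem_range]
  constructor
  · rintro ⟨⟨_, h2⟩, h3⟩
    exact ⟨h3, h2⟩
  · rintro ⟨h3, h2⟩
    exact ⟨⟨by omega, h2⟩, h3⟩

theorem card_split (B : ℕ) (s : ℕ → ℕ) (h : ℕ) (hB : h ≤ B) :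
    ((cor B s).filter (fun l => h ≤ l)).card + cc s h = cc s B := by
  rw [← card_low B s h hB]
  have h1 : (cor B s).filter (fun l => l < h) = (cor B s).filter (fun l => ¬ (h ≤ l)) := by
    ext l
    simp only [mem_filter, not_le]
  rw [h1, card_filter_add_card_filter_not]
  rfl

/-- Fb. -/
theorem hFb : StFb := by
  intro B s h hS h2 hsh
  have hhB : h + 1 < B := by
    by_contra hc
    have := hS.fin h (by omega)
    omega
  obtain ⟨k, rfl⟩ : ∃ k, h = k + 2 := ⟨h - 2, by omega⟩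
  have hlow := low s hS.anti k
  have hhigh := high s (k + 2) (B - (k + 2))
  have e1 : k + 2 + (B - (k + 2)) = B := by omega
  rw [e1] at hhigh
  have hc1 := cc_succ s B
  have hc2 := cc_succ s (k + 2)
  have hsp := card_split B s (k + 2) (by omega)
  have hlo := card_low B s (k + 2) (by omega)
  rw [hlo]
  have hsum : ∑ p ∈ range (k + 2), (s (p + 1) - 1) =
      ∑ p ∈ range (k + 1), (s (p + 1) - 1) + (s (k + 2) - 1) := by
    rw [sum_range_succ]
  have har : ar B s = ∑ p ∈ range B, (s (p + 1) - 1) := rfl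
  have hb1 : (if 1 ≤ B ∧ 2 ≤ s B ∧ s (B + 1) < s B then 1 else 0) ≤ 1 := by split_ifs <;> omega
  have hb2 : (if 1 ≤ k + 2 ∧ 2 ≤ s (k + 2) ∧ s (k + 2 + 1) < s (k + 2) then 1 else 0) ≤ 1 := by
    split_ifs <;> omega
  rw [har]
  rw [hsum] at hhigh
  have e3 : 2 * (k + 2 - 1) * (s (k + 2) - 1) = 2 * k * (s (k + 2) - 1) + 2 * (s (k + 2) - 1) := by
    have : k + 2 - 1 = k + 1 := by omega
    rw [this]
    ring
  rw [e3]
  generalize (if 1 ≤ B ∧ 2 ≤ s B ∧ s (B + 1) < s B then 1 else 0) = b1 at hc1 hb1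
  generalize (if 1 ≤ k + 2 ∧ 2 ≤ s (k + 2) ∧ s (k + 2 + 1) < s (k + 2) then 1 else 0) = b2 at hc2 hb2
  generalize 2 * k * (s (k + 2) - 1) = m1 at hlow
  generalize cc s (k + 2) * cc s (k + 2) = m2 at hlow
  omega

end Pool.Agent.Helper92.W4
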